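import Pool.Agent.Helper23.PL.Defs
import Pool.Agent.Helper70.HH.QQ

/-!
# PL-1 (DP): disjoint short paths with different pairs of ends
-/

set_option autoImplicit false

open Set
open Pool.Agent.Helper83.OP Pool.Agent.Helper93.HH

namespace Pool.Agent.Helper78.PL

/-- **PL-1 (DP).** Disjoint short paths with different pairs of ends. -/
theorem DP {V : Type} [Finite V] (H : SimpleGraph V) (X : Sym2 V → Sym2 V → Prop)
    (hs : ∀ f f', X f f' → X f' f)
    (h1 : ∀ f ∈ H.edgeSet, {f' | f' ∈ H.edgeSet ∧ X f f'}.ncard ≤ 1) (hP : PlanarLike H X)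
    (U : Set V) {I : Type} [Finite I] (a b : I → V) (W : ∀ i, H.Walk (a i) (b i)) (l : ℕ)
    (ha : ∀ i, a i ∈ U) (hb : ∀ i, b i ∈ U) (hne : ∀ i, a i ≠ b i)
    (hin : ∀ i, ∀ z ∈ (W i).support, z ∈ U → z = a i ∨ z = b i)
    (hd : ∀ i j, i ≠ j → ∀ z ∈ (W i).support, z ∈ (W j).support → z ∈ U)
    (hl : ∀ i, (W i).length ≤ l)
    (hp : ∀ i j, i ≠ j → s(a i, b i) ≠ s(a j, b j)) :
    Nat.card I ≤ 4 * (l + 1) * U.ncard := by
  classical
  -- an edge is on at most one walk
  have edge_one : ∀ i j (f : Sym2 V), f ∈ (W i).edges → f ∈ (W j).edges → i = j := by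
    intro i j f h h'
    by_contra hij
    induction f with
    | h u v =>
      have huv : u ≠ v := ((W i).adj_of_mem_edges h).ne
      have hu := (W i).fst_mem_support_of_mem_edges h
      have hv := (W i).snd_mem_support_of_mem_edges h
      have hu' := (W j).fst_mem_support_of_mem_edges h'
      have hv' := (W j).snd_mem_support_of_mem_edges h'
      have hU := hd i j hij u hu hu'
      have hV := hd i j hij v hv hv'
      have e1 := hin i u hu hU
      have e2 := hin i v hv hV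
      have e3 := hin j u hu' hU
      have e4 := hin j v hv' hV
      have k1 : s(a i, b i) = s(u, v) := by
        rcases e1 with e1 | e1 <;> rcases e2 with e2 | e2
        · exact absurd (e1.trans e2.symm) huv
        · rw [e1, e2]
        · rw [e1, e2]; exact Sym2.eq_swap
        · exact absurd (e1.trans e2.symm) huv
      have k2 : s(a j, b j) = s(u, v) := by
        rcases e3 with e3 | e3 <;> rcases e4 with e4 | e4
        · exact absurd (e3.trans e4.symm) huv
        · rw [e3, e4]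
        · rw [e3, e4]; exact Sym2.eq_swap
        · exact absurd (e3.trans e4.symm) huv
      exact hp i j hij (k1.trans k2.symm)
  have hH : ∀ i, ∀ f ∈ (W i).edges, f ∈ H.edgeSet := fun i f hf => (W i).edges_subset_edgeSet hf
  -- conflicts
  let C : I → I → Prop := fun i j => ∃ f ∈ (W i).edges, ∃ f' ∈ (W j).edges, X f f'
  have hC : ∀ i ∈ (Set.univ : Set I), {j | j ∈ (Set.univ : Set I) ∧ C i j}.ncard ≤ l := by
    intro i _
    have hex : ∀ j : {j // C i j}, ∃ f : Sym2 V, f ∈ (W i).edges ∧ ∃ f' ∈ (W j.1).edges, X f f' :=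
      fun j => j.2
    choose φ hφ using hex
    let ψ : I → Sym2 V := fun j => if h : C i j then φ ⟨j, h⟩ else s(a i, a i)
    have hψ : ∀ j, C i j → ψ j ∈ (W i).edges ∧ ∃ f' ∈ (W j).edges, X (ψ j) f' := by
      intro j hj
      have : ψ j = φ ⟨j, hj⟩ := dif_pos hj
      rw [this]
      exact hφ ⟨j, hj⟩
    have k1 : {j | j ∈ (Set.univ : Set I) ∧ C i j}.ncard
        ≤ ((W i).edges.toFinset : Set (Sym2 V)).ncard := by
      refine Set.ncard_le_ncard_of_injOn ψ ?_ ?_ (Set.toFinite _)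
      · intro j hj
        rw [Finset.mem_coe, List.mem_toFinset]
        exact (hψ j hj.2).1
      · intro x hx y hy hxy
        obtain ⟨_, fa, ha2, ha3⟩ := hψ x hx.2
        obtain ⟨_, fb, hb2, hb3⟩ := hψ y hy.2
        rw [← hxy] at hb3
        have k2 := h1 (ψ x) (hH i _ (hψ x hx.2).1)
        rw [Set.ncard_le_one (Set.toFinite _)] at k2
        have k3 := k2 fa ⟨hH x _ ha2, ha3⟩ fb ⟨hH y _ hb2, hb3⟩
        rw [← k3] at hb2
        exact edge_one x y fa ha2 hb2
    refine k1.trans ?_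
    rw [Set.ncard_coe_finset]
    refine (List.toFinset_card_le _).trans ?_
    rw [SimpleGraph.Walk.length_edges]
    exact hl i
  obtain ⟨J, -, hJ, hcard⟩ := Pool.Agent.Helper70.HH.exists_indep (Set.univ : Set I) C l hC
  have hJ' : ∀ i ∈ J, ∀ j ∈ J, i ≠ j → ¬ C i j := by
    intro i hi j hj hij
    rcases hJ i hi j hj hij with h | h
    · exact h
    · rintro ⟨f, hf, f', hf', hx⟩
      exact h ⟨f', hf', f, hf, hs _ _ hx⟩
  -- the links
  let Γ : SimpleGraph V :=
    { Adj := fun s t => ∃ i ∈ J, (s = a i ∧ t = b i) ∨ (s = b i ∧ t = a i)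
      symm := ⟨by
        rintro s t ⟨i, hi, h | h⟩
        · exact ⟨i, hi, Or.inr ⟨h.2, h.1⟩⟩
        · exact ⟨i, hi, Or.inl ⟨h.2, h.1⟩⟩⟩
      loopless := ⟨by
        rintro s ⟨i, hi, h | h⟩
        · exact hne i (h.1.symm.trans h.2)
        · exact hne i (h.2.symm.trans h.1)⟩ }
  have hR : ∀ s t, Γ.Adj s t → ∃ i ∈ J, ∃ R : H.Walk s t,
      (∀ v ∈ R.support, v ∈ (W i).support) ∧ (∀ f ∈ R.edges, f ∈ (W i).edges) ∧
      ((s = a i ∧ t = b i) ∨ (s = b i ∧ t = a i)) := by
    rintro s t ⟨i, hi, ⟨rfl, rfl⟩ | ⟨rfl, rfl⟩⟩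
    · exact ⟨i, hi, W i, fun v hv => hv, fun f hf => hf, Or.inl ⟨rfl, rfl⟩⟩
    · refine ⟨i, hi, (W i).reverse, ?_, ?_, Or.inr ⟨rfl, rfl⟩⟩
      · intro v hv
        rwa [SimpleGraph.Walk.support_reverse, List.mem_reverse] at hv
      · intro f hf
        rwa [SimpleGraph.Walk.edges_reverse, List.mem_reverse] at hf
  choose ρ hρJ R hR1 hR2 hR3 using hR
  have hpl := hP Γ R (by
    intro s t s' t' h h' g1 g2 g3 g4
    have hne' : ρ s t h ≠ ρ s' t' h' := by
      intro he
      rcases hR3 s t h with ⟨e1, e2⟩ | ⟨e1, e2⟩ <;> rcases hR3 s' t' h' with ⟨e3, e4⟩ | ⟨e3, e4⟩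
      · exact g1 (by rw [e1, e3, he])
      · exact g2 (by rw [e1, e4, he])
      · exact g3 (by rw [e2, e3, he])
      · exact g1 (by rw [e1, e3, he])
    refine ⟨?_, ?_⟩
    · intro v hv hv'
      have a1 := hR1 s t h v hv
      have a2 := hR1 s' t' h' v hv'
      have hvU := hd _ _ hne' v a1 a2
      have b1 : v = s ∨ v = t := by
        rcases hR3 s t h with ⟨e1, e2⟩ | ⟨e1, e2⟩
        · rcases hin _ v a1 hvU with h5 | h5
          · exact Or.inl (h5.trans e1.symm)
          · exact Or.inr (h5.trans e2.symm)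
        · rcases hin _ v a1 hvU with h5 | h5
          · exact Or.inr (h5.trans e2.symm)
          · exact Or.inl (h5.trans e1.symm)
      have b2 : v = s' ∨ v = t' := by
        rcases hR3 s' t' h' with ⟨e1, e2⟩ | ⟨e1, e2⟩
        · rcases hin _ v a2 hvU with h5 | h5
          · exact Or.inl (h5.trans e1.symm)
          · exact Or.inr (h5.trans e2.symm)
        · rcases hin _ v a2 hvU with h5 | h5
          · exact Or.inr (h5.trans e2.symm)
          · exact Or.inl (h5.trans e1.symm)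
      rcases b1 with b1 | b1 <;> rcases b2 with b2 | b2
      · exact g1 (b1.symm.trans b2)
      · exact g2 (b1.symm.trans b2)
      · exact g3 (b1.symm.trans b2)
      · exact g4 (b1.symm.trans b2)
    · intro f hf f' hf' hx
      exact hJ' _ (hρJ s t h) _ (hρJ s' t' h') hne'
        ⟨f, hR2 s t h f hf, f', hR2 s' t' h' f' hf', hx⟩)
  have hfew := few_edges Γ U (by
    rintro s t ⟨i, hi, h | h⟩
    · rw [h.1, h.2]
      exact ⟨ha i, hb i⟩
    · rw [h.1, h.2]
      exact ⟨hb i, ha i⟩) hpl.1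
  have hJcard : J.ncard ≤ Γ.edgeSet.ncard := by
    refine Set.ncard_le_ncard_of_injOn (fun i => s(a i, b i)) ?_ ?_ (Set.toFinite _)
    · intro i hi
      exact ⟨i, hi, Or.inl ⟨rfl, rfl⟩⟩
    · intro x hx y hy hxy
      by_contra hne'
      exact hp x y hne' hxy
  rw [Set.ncard_univ] at hcard
  calc Nat.card I ≤ (l + 1) * J.ncard := hcard
    _ ≤ (l + 1) * (4 * U.ncard) := Nat.mul_le_mul_left _ (hJcard.trans hfew)
    _ = 4 * (l + 1) * U.ncard := by ring

end Pool.Agent.Helper78.PL
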